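import Mathlib

open Set

namespace Pool.Agent.Results.MP_0c20fd_an.Counter

variable {X : Type} [NormedAddCommGroup X] [NormedSpace ℝ X]

/-- the supremum over the dual unit ball of `(∑ |f (x i)|²)^(1/2)` -/
noncomputable def weak2 {m : ℕ} (x : Fin m → X) : ℝ :=
  sSup {r | ∃ f : X →L[ℝ] ℝ, ‖f‖ ≤ 1 ∧ r = √(∑ i, |f (x i)| ^ 2)}

/-- the 2-summing norm: the least constant `C` in the 2-summing inequality -/
noncomputable def pi2 (T : X →ₗ[ℝ] X) : ℝ :=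
  sInf {C | 0 ≤ C ∧ ∀ (m : ℕ) (x : Fin m → X), √(∑ i, ‖T (x i)‖ ^ 2) ≤ C * weak2 x}

/-- the norm of a linear functional on the space of operators normed by `pi2` -/
noncomputable def dualNorm (φ : (X →ₗ[ℝ] X) →ₗ[ℝ] ℝ) : ℝ :=
  sInf {c | 0 ≤ c ∧ ∀ S, |φ S| ≤ c * pi2 S}

lemma le_weak2 {m : ℕ} (x : Fin m → X) (f : X →L[ℝ] ℝ) (hf : ‖f‖ ≤ 1) :
    √(∑ i, |f (x i)| ^ 2) ≤ weak2 x := by
  refine le_csSup ⟨√(∑ i, ‖x i‖ ^ 2), ?_⟩ ⟨f, hf, rfl⟩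
  rintro _ ⟨g, hg, rfl⟩
  refine Real.sqrt_le_sqrt (Finset.sum_le_sum fun i _ => pow_le_pow_left₀ (abs_nonneg _) ?_ 2)
  simpa using g.le_of_opNorm_le hg (x i)

lemma bound (S : ℝ × ℝ →ₗ[ℝ] ℝ × ℝ) {c : ℝ} (c0 : 0 ≤ c)
    (h : ∀ v, ‖S v‖ ^ 2 ≤ c ^ 2 / 2 * (|v.1| ^ 2 + |v.2| ^ 2)) (m : ℕ) (x : Fin m → ℝ × ℝ) :
    √(∑ i, ‖S (x i)‖ ^ 2) ≤ c * weak2 x := by
  have h1 := le_weak2 x (ContinuousLinearMap.fst ℝ ℝ ℝ) (ContinuousLinearMap.norm_fst_le _ _ _)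
  have h2 := le_weak2 x (ContinuousLinearMap.snd ℝ ℝ ℝ) (ContinuousLinearMap.norm_snd_le _ _ _)
  have w0 := (Real.sqrt_nonneg _).trans h1
  rw [Real.sqrt_le_left w0] at h1 h2
  rw [Real.sqrt_le_left (mul_nonneg c0 w0)]
  refine (Finset.sum_le_sum fun i _ => h (x i)).trans ?_
  rw [← Finset.mul_sum, Finset.sum_add_distrib]
  have := mul_le_mul_of_nonneg_left (add_le_add h1 h2) (by positivity : 0 ≤ c ^ 2 / 2)
  exact this.trans_eq (by ring)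

lemma le_pi2 (S : ℝ × ℝ →ₗ[ℝ] ℝ × ℝ) (v : ℝ × ℝ) (hv : ‖v‖ = 1) : ‖S v‖ ≤ pi2 S := by
  refine le_csInf ⟨2 * (‖S (1, 0)‖ + ‖S (0, 1)‖), by positivity, bound S (by positivity)
    fun u => ?_⟩ fun C hC => ?_
  · have e : S u = u.1 • S (1, 0) + u.2 • S (0, 1) := by
      rw [← map_smul, ← map_smul, ← map_add]; simp
    have : ‖S u‖ ≤ |u.1| * ‖S (1, 0)‖ + |u.2| * ‖S (0, 1)‖ := by
      rw [e]; exact (norm_add_le _ _).trans (by rw [norm_smul, norm_smul]; rfl)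
    have h2 := pow_le_pow_left₀ (norm_nonneg _) this 2
    have := norm_nonneg (S (1, 0))
    have := norm_nonneg (S (0, 1))
    nlinarith [sq_nonneg (|u.1| * ‖S (0, 1)‖ - |u.2| * ‖S (1, 0)‖), sq_nonneg |u.1|,
      sq_nonneg |u.2|, mul_nonneg (sq_nonneg |u.1|) (sq_nonneg (‖S (1, 0)‖ + ‖S (0, 1)‖)),
      mul_nonneg (sq_nonneg |u.2|) (sq_nonneg (‖S (1, 0)‖ + ‖S (0, 1)‖)),
      mul_nonneg (add_nonneg (sq_nonneg |u.1|) (sq_nonneg |u.2|))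
        (mul_nonneg (norm_nonneg (S (1, 0))) (norm_nonneg (S (0, 1))))]
  · have h1 := hC.2 1 fun _ => v
    have h2 : weak2 (fun _ : Fin 1 => v) ≤ 1 := Real.sSup_le (by
      rintro _ ⟨g, hg, rfl⟩
      have := g.le_of_opNorm_le hg v
      simpa [hv, Real.sqrt_sq_eq_abs] using this) zero_le_one
    simp only [Finset.univ_unique, Finset.sum_singleton, Real.sqrt_sq (norm_nonneg _)] at h1
    exact h1.trans (mul_le_of_le_one_right hC.1 h2)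

/-- There are a finite-dimensional real Banach space `X`, an invertible operator `T` on `X` and two
distinct norm-one functionals on the space of operators with the 2-summing norm that take the value
`pi2 T` at `T`. -/
theorem result :
    ∃ (X : Type) (_ : NormedAddCommGroup X) (_ : NormedSpace ℝ X) (_ : FiniteDimensional ℝ X)
      (T : X →ₗ[ℝ] X), Function.Bijective T ∧ ∃ φ ψ : (X →ₗ[ℝ] X) →ₗ[ℝ] ℝ, φ ≠ ψ ∧
        dualNorm φ = 1 ∧ dualNorm ψ = 1 ∧ φ T = pi2 T ∧ ψ T = pi2 T := by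
  let T : ℝ × ℝ →ₗ[ℝ] ℝ × ℝ := (LinearMap.fst ℝ ℝ ℝ + LinearMap.snd ℝ ℝ ℝ).prod
    (LinearMap.fst ℝ ℝ ℝ - LinearMap.snd ℝ ℝ ℝ)
  have Ta : ∀ v, T v = (v.1 + v.2, v.1 - v.2) := fun _ => rfl
  have p : pi2 T = 2 := le_antisymm (csInf_le ⟨0, fun _ h => h.1⟩ ⟨zero_le_two, bound T zero_le_two
    fun v => by
      rw [Ta, Prod.norm_mk, sq_abs, sq_abs]
      rcases max_choice ‖v.1 + v.2‖ ‖v.1 - v.2‖ with e | e <;> rw [e, Real.norm_eq_abs, sq_abs] <;>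
        nlinarith [sq_nonneg (v.1 + v.2), sq_nonneg (v.1 - v.2)]⟩) (by
    have := le_pi2 T (1, 1) (by simp)
    rw [Ta] at this
    exact le_trans (by norm_num) this)
  have dn : ∀ φ : (ℝ × ℝ →ₗ[ℝ] ℝ × ℝ) →ₗ[ℝ] ℝ, (∀ S, |φ S| ≤ pi2 S) → φ T = 2 → dualNorm φ = 1 :=
    fun φ h1 h2 => IsLeast.csInf_eq ⟨⟨zero_le_one, fun S => by rw [one_mul]; exact h1 S⟩,
      fun c hc => by
        have := hc.2 T
        rw [h2, p, abs_two] at this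
        linarith⟩
  refine ⟨ℝ × ℝ, inferInstance, inferInstance, inferInstance, T, ⟨fun u v h => ?_, fun w =>
    ⟨((w.1 + w.2) / 2, (w.1 - w.2) / 2), by rw [Ta]; ext <;> ring⟩⟩,
    LinearMap.fst ℝ ℝ ℝ ∘ₗ LinearMap.applyₗ (1, 1), LinearMap.snd ℝ ℝ ℝ ∘ₗ LinearMap.applyₗ (1, -1),
    fun h => ?_, dn _ (fun S => (norm_fst_le (S (1, 1))).trans (le_pi2 S _ (by simp))) ?_,
    dn _ (fun S => (norm_snd_le (S (1, -1))).trans (le_pi2 S _ (by simp))) ?_, ?_, ?_⟩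
  · rw [Ta, Ta, Prod.mk.injEq] at h
    ext <;> linarith [h.1, h.2]
  · have : (1:ℝ) = -1 := LinearMap.congr_fun h LinearMap.id
    norm_num at this
  all_goals simp [Ta, p]; norm_num

end Pool.Agent.Results.MP_0c20fd_an.Counter
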